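import Pool.Agent.H590R3.AbMain
import Pool.Agent.H590R3.AbParti

/-!
# Banach-Mazur rotations: abelian groups of isometries normalised by a transitive group

Let `E` be a separable real Banach space, `G` a group of surjective linear isometries of `E` acting
transitively on the unit sphere, `N` an abelian group of isometries normalised by `G`. Then `N` is
contained in `{1, -1}` or in a circle `{cos θ + sin θ J}`, `J² = -1`, and every element of `G`
commutes or anticommutes with `J`.

Proof outline.

1. `AbNear.lean` (Baire category): the orbit maps of `G` on the sphere are nearly open.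
2. `AbCore.lean`: if a bounded operator `a` commutes with all `T a T⁻¹`, `T ∈ G`, and kills a
   nonzero vector, then `a² = 0`: moving `x ∈ ker a` to `x + ε w` by `T ∈ G` close to `1` gives
   `0 = a b (x + ε w) = ε a b w` for `b = T a T⁻¹`, up to small errors, and `b w → a w`.
3. `AbFop.lean`: functional calculus `∑ a_k n^k` of an isometry for absolutely summable Fourier
   coefficients. `AbParti.lean` (Fourier analysis): a partition of unity in this algebra by thin
   bump functions of `cos θ`; two bumps with disjoint supports cannot both be nonzero at `n`, by 2.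
4. `AbWin.lean`: hence `n + n⁻¹` is a scalar for every `n ∈ N`. `AbMain.lean`: conclusion.
-/

set_option autoImplicit false
set_option linter.unusedVariables false

namespace Pool.Agent.Results.MP_cc72b1_an.AbelianNormal

theorem result :
    ∀ (E : Type) [NormedAddCommGroup E] [NormedSpace ℝ E] [CompleteSpace E]
      [TopologicalSpace.SeparableSpace E] (G N : Subgroup (E ≃ₗᵢ[ℝ] E)),
      (∀ x y : E, ‖x‖ = 1 → ‖y‖ = 1 → ∃ T ∈ G, T x = y) →
      (∀ T ∈ G, ∀ S ∈ N, T * S * T⁻¹ ∈ N) →
      (∀ S ∈ N, ∀ T ∈ N, S * T = T * S) →
      (∀ S ∈ N, (∀ x, S x = x) ∨ (∀ x, S x = -x)) ∨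
      ∃ J : E →L[ℝ] E, (∀ x, J (J x) = -x) ∧
        (∀ S ∈ N, ∃ θ : ℝ, ∀ x, S x = Real.cos θ • x + Real.sin θ • J x) ∧
        (∀ U ∈ G, (∀ x, U (J x) = J (U x)) ∨ (∀ x, U (J x) = -J (U x))) := by
  intro E _ _ _ _ G N htr hN hab
  exact Pool.H590R3.Ab.abelian_normal Pool.H590R3.Ab.parti G N htr hN hab

end Pool.Agent.Results.MP_cc72b1_an.AbelianNormal
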