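import Pool.Agent.H770R2.MazL9

/-!
# Convex-transitive norms on Hilbertian subspaces and quotients of `L_p`

If `E` is isomorphic to a Hilbert space and `E` or its dual is isometric to a subspace of `L_p`,
`0 < p < ∞`, then some equivalent inner product is invariant under all linear isometries of `E`
(files `Pool/Agent/H770R2/MazL*`), so a convex-transitive norm on `E` is Hilbertian.
-/

set_option autoImplicit false
set_option linter.unusedVariables false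

namespace Pool.Agent.Results.MP_cc72b1_an.HilbertianLp

open MeasureTheory
open scoped ENNReal

theorem result :
    ∀ (E : Type) [NormedAddCommGroup E] [NormedSpace ℝ E] [CompleteSpace E]
      (H : Type) [NormedAddCommGroup H] [InnerProductSpace ℝ H] [CompleteSpace H]
      (Ω : Type) [MeasurableSpace Ω] (μ : Measure Ω) (p : ℝ≥0∞),
      Nonempty (E ≃L[ℝ] H) → p ≠ 0 → p ≠ ∞ →
      ((∃ J : E →ₗ[ℝ] Lp ℝ p μ, ∀ u, ‖J u‖ = ‖u‖) ∨
        (∃ J : StrongDual ℝ E →ₗ[ℝ] Lp ℝ p μ, ∀ f, ‖J f‖ = ‖f‖)) →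
      (∀ x y : E, ‖x‖ = 1 → ‖y‖ = 1 →
        y ∈ closure (convexHull ℝ {z : E | ∃ T : E ≃ₗᵢ[ℝ] E, T x = z})) →
      ∃ (F : Type) (instF : NormedAddCommGroup F) (instI : InnerProductSpace ℝ F)
        (instC : CompleteSpace F), Nonempty (E ≃ₗᵢ[ℝ] F) := by
  intro E _ _ _ H _ _ _ Ω _ μ p hT hp0 hpt hemb hct
  obtain ⟨T⟩ := hT
  have key : ∀ x y : E,
      ‖x + y‖ * ‖x + y‖ + ‖x - y‖ * ‖x - y‖ = 2 * (‖x‖ * ‖x‖ + ‖y‖ * ‖y‖) := by
    rcases hemb with ⟨J, hJ⟩ | ⟨J, hJ⟩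
    · obtain ⟨Φ, c, C, hc, hC, hbd, hinv⟩ := Pool.H770R2.MazL.exists_Phi hp0 hpt J hJ T
      exact Pool.H770R2.MazL.paral_of_Phi Φ hc hC hbd hinv hct
    · have T' : StrongDual ℝ E ≃L[ℝ] H :=
        (ContinuousLinearEquiv.arrowCongr T (ContinuousLinearEquiv.refl ℝ ℝ)).trans
          (Pool.H770R2.MazL.toD H)
      obtain ⟨Φ, c, C, hc, hC, hbd, hinv⟩ := Pool.H770R2.MazL.exists_Phi hp0 hpt J hJ T'
      exact Pool.H770R2.MazL.paral_of_Phi_dual Φ hc hC hbd hinv hct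
  exact ⟨E, inferInstance, InnerProductSpace.ofNorm ℝ key, inferInstance,
    ⟨LinearIsometryEquiv.refl ℝ E⟩⟩

end Pool.Agent.Results.MP_cc72b1_an.HilbertianLp
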