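import Pool.Agent.H305R3.Rot.Amen
import Pool.Agent.H305R3.Rot.Conv

/-!
# Separable transitive spaces without null orbits are Hilbertian

Proof outline (files `Pool/Agent/H305R3/Rot/*`; `E` separable with transitive norm, `x` a unit
vector, `dl x w = |x + w| + |x - w| - 2`).

1. `Near.lean` (Baire category): for every finite set `e_i` and `k > 0` there is `t > 0` such that
   every unit vector `y` with `|y - x| <= t` is a limit of vectors `T x` with isometries `T` which
   move all `e_i` by at most `k`.
2. `Step.lean`: if `dl x w <= max_i dl x (s e_i)` whenever `|w| <= c s`, then `dl x w <= K |w|^2`: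
   a direction `s e_i` with an unusually large second difference at `x` would have one at all
   points near `x` by 1. and convexity, and second differences along a segment add up.
3. `Dual.lean`: such domination holds when the orbits of finitely many vectors under the
   near-stabilizers of `x` norm the dual; the dual space is then separable with a transitive norm
   and the same argument applies there; the two smoothness estimates pinch the second differences
   of the squared norm, whose invariant mean is an equivalent inner product.
4. `Dich.lean`: when the orbits of no finite set norm the dual (the space), diagonalization gives a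
   null sequence.
5. `Amen.lean`, `Conv.lean`: the amenable case and the converse.
-/

set_option autoImplicit false
set_option linter.unusedVariables false

namespace Pool.Agent.Results.MP_cc72b1_an.NullOrbits

open Pool.H305R3.Rot

theorem result :
    ∀ (E : Type) [NormedAddCommGroup E] [NormedSpace ℝ E] [CompleteSpace E]
      [TopologicalSpace.SeparableSpace E],
      (∀ x y : E, ‖x‖ = 1 → ‖y‖ = 1 → ∃ T : E ≃ₗᵢ[ℝ] E, T x = y) →
      ∀ x : E, ‖x‖ = 1 →
        ((¬ NullDual E x ∧ ¬ NullVec E x) →
          ∃ (H : Type) (instH : NormedAddCommGroup H) (instI : InnerProductSpace ℝ H)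
            (instC : CompleteSpace H), Nonempty (E ≃L[ℝ] H)) ∧
        (SOTAmenable E →
          ((¬ NullDual E x ∧ ¬ NullVec E x) ↔
            ∃ (H : Type) (instH : NormedAddCommGroup H) (instI : InnerProductSpace ℝ H)
              (instC : CompleteSpace H), Nonempty (E ≃ₗᵢ[ℝ] H))) := by
  intro E _ _ _ _ htr x hx
  refine ⟨fun h => dichotomy htr x hx h.1 h.2, fun hA => ⟨fun h => ?_, ?_⟩⟩
  · obtain ⟨H, i1, i2, i3, ⟨A⟩⟩ := dichotomy htr x hx h.1 h.2
    exact isometric_of_amenable htr hA x hx A
  · rintro ⟨H, i1, i2, i3, ⟨A⟩⟩
    exact not_null_of_isometric A x hx

end Pool.Agent.Results.MP_cc72b1_an.NullOrbits
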