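import Pool.Agent.H305R3.Pinch.Main

/-!
# Second-order pinching at a single point of a transitive norm

Proof outline (files `Pool/Agent/H305R3/Pinch/*`): transitivity and homogeneity carry the
directional bounds from `x` to every point of `E`; along each line a continuous function whose
lower second symmetric derivative is at most zero everywhere is midpoint concave (`schwarz`), so
the infinitesimal bounds, which hold only for some small `t` depending on the direction, become
global bounds for second differences of the squared norm; when one of the constants is one this is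
half of the parallelogram law, hence all of it; in general an invariant mean of the additive group
gives the inner product.
-/

set_option autoImplicit false
set_option linter.unusedVariables false

namespace Pool.Agent.Results.MP_cc72b1_an.OnePointPinching

open Pool.H305R3.Pinch

theorem result :
    ∀ (E : Type) [NormedAddCommGroup E] [NormedSpace ℝ E] [CompleteSpace E],
      (∀ x y : E, ‖x‖ = 1 → ‖y‖ = 1 → ∃ T : E ≃ₗᵢ[ℝ] E, T x = y) →
      ∀ (x : E) (m M : ℝ), ‖x‖ = 1 → 0 < m →
        ((UpperAt E x 1 ∨ LowerAt E x 1) →
          ∃ (H : Type) (instH : NormedAddCommGroup H) (instI : InnerProductSpace ℝ H)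
            (instC : CompleteSpace H), Nonempty (E ≃ₗᵢ[ℝ] H)) ∧
        (UpperAt E x M → LowerAt E x m →
          ∃ (H : Type) (instH : NormedAddCommGroup H) (instI : InnerProductSpace ℝ H)
            (instC : CompleteSpace H) (A : E ≃L[ℝ] H),
            ∀ v : E, m * ‖v‖ ^ 2 ≤ ‖A v‖ ^ 2 ∧ ‖A v‖ ^ 2 ≤ M * ‖v‖ ^ 2) := by
  intro E _ _ _ htr x m M hx hm
  refine ⟨?_, ?_⟩
  · intro h
    have key : ∀ a b : E,
        ‖a + b‖ * ‖a + b‖ + ‖a - b‖ * ‖a - b‖ = 2 * (‖a‖ * ‖a‖ + ‖b‖ * ‖b‖) := by
      have ef : ∀ a b : E, (a + b) + (a - b) = (2 : ℝ) • a := fun a b => by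
        rw [two_smul]; abel
      have eg : ∀ a b : E, (a + b) - (a - b) = (2 : ℝ) • b := fun a b => by
        rw [two_smul]; abel
      have n2 : ∀ a : E, ‖(2 : ℝ) • a‖ = 2 * ‖a‖ := fun a => by
        rw [norm_smul, Real.norm_of_nonneg (by norm_num : (0:ℝ) ≤ 2)]
      rcases h with h | h
      · have hg := upper_global (upper_all htr hx h)
        intro a b
        have h1 := hg a b
        have h2 := hg (a + b) (a - b)
        rw [ef, eg, n2, n2] at h2
        nlinarith
      · have hg := lower_global (lower_all htr hx h)
        intro a b
        have h1 := hg a b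
        have h2 := hg (a + b) (a - b)
        rw [ef, eg, n2, n2] at h2
        nlinarith
    exact ⟨E, inferInstance, InnerProductSpace.ofNorm ℝ key, inferInstance,
      ⟨LinearIsometryEquiv.refl ℝ E⟩⟩
  · intro hU hL
    have hM : 1 ≤ M := one_le_of_upper hx hU
    have hup := upper_global (upper_all htr hx hU)
    have hlow := lower_global (lower_all htr hx hL)
    obtain ⟨B, h1, h2, h3, h4, h5⟩ := form_of_bounds (E := E) (c := 2 * m) (C := 2 * M)
      (by positivity) (by linarith) hlow hup
    obtain ⟨H, i1, i2, i3, A, hA⟩ := hilbert_of_form2 (E := E) (fun u w => B u w / 2)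
      (c := m) (C := M) hm (by linarith) (fun u w => by simp only [h1 u w])
      (fun u v w => by simp only [h2 u v w]; ring) (fun r u w => by simp only [h3 r u w]; ring)
      (fun w => by have := h4 w; linarith)
      (fun w => by have := h5 w; linarith)
    refine ⟨H, i1, i2, i3, A, fun v => ?_⟩
    have a1 := h4 v
    have a2 := h5 v
    rw [hA v]
    constructor <;> linarith

end Pool.Agent.Results.MP_cc72b1_an.OnePointPinching
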